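import Mathlib
import Pool.Agent.Lib.MP_a8e10c_co.Defs
import Pool.Agent.Lib.MP_a8e10c_co.Upper
import Pool.Agent.Lib.MP_a8e10c_co.Count

/-!
# MP_a8e10c_co, Q1: the bipartite thickness of `K_p` for `p ≡ 2 (mod 4)`, `p ≥ 14`

Write `p = 4 s + 2`, so `s ≥ 3`. Take the decomposition of the complete graph on `2 s` nodes into
`s` zigzag Hamiltonian paths (Walecki) and double every node `c` into `c', c''`. A doubled path is
drawn as a sequence of nested quadrilaterals. In the `r`-th doubled path we pick a node pair
`{2 g, 2 g + 1}`, with `g` depending bijectively on `r`, whose two nodes are at distance two on the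
path, and put the extra vertices `u`, `v` into two twin quadrilaterals, `u` being joined to
`(2 g)', (2 g + 1)'` and `v` to `(2 g)'', (2 g + 1)''`. What is left is the edge `u v` together with
the paths `u c'' c' v`, a planar bipartite graph. So `s + 1` graphs suffice.

For the lower bound we show that a triangle-free plane straight-line graph on `n` vertices has at
most `2 n` edges.
-/

namespace Pool.Agent.Results.MP_a8e10c_co.Main

open Pool.Agent.Lib.MP_a8e10c_co

/-- Full answer to Q1: the bipartite thickness of `K_p` is `(p + 2) / 4` for every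
`p ≡ 2 (mod 4)` with `p ≥ 14`. -/
theorem result (p : ℕ) (hp : p % 4 = 2) (hp' : 14 ≤ p) :
    bipartiteThickness (⊤ : SimpleGraph (Fin p)) = (p + 2) / 4 := by
  have h : IsLeast {t | CoveredBy (⊤ : SimpleGraph (Fin p)) t} ((p + 2) / 4) :=
    ⟨upper p hp hp', fun t ht => lower p t hp ht⟩
  exact h.csInf_eq

end Pool.Agent.Results.MP_a8e10c_co.Main
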